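import Pool.Agent.U231.PF.Eng
import Pool.Agent.U231.LT.Dec

/-!
# Varieties of Fermat type over finite fields: fixed elements
-/

set_option autoImplicit false
set_option linter.unusedSectionVars false

open TensorProduct Finset

namespace Pool.Agent.U231.PF

open Pool.Agent.Y95.ZT.S Pool.Agent.U231.LP Pool.Agent.U231.FT Pool.Agent.U231.HF
  Pool.Agent.U231.LT

variable {E : Type} [Field E] {Γ : Type} [Group Γ] {v : E → ℚ} {φ : Γ}

/-- **The decomposition.** -/
theorem QData.decompose {N s : ℕ} {c : (E ≃+* E) →* (ZMod N)ˣ} {M : Rp E Γ} {cl : Set M.V}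
    (C : QData v φ N s c M cl) {n : ℕ} {a : Fin n → M.V} {f : Fin n → (M.V →ₗ[E] E)}
    (hd : IsDualBasis φ M cl a f) {M' : Rp E Γ} {y : (tens M M').V}
    (h : ∀ i, ¬C.Symm i → ∀ f, C.IsFn i f → ctr f y = 0) :
    y = ∑ l, ext (a l) (ctr (f l) y) := by
  classical
  let P : Module.End E M.V := ∑ j ∈ univ.filter C.Symm, C.p j
  have hP : ∀ x, P x ∈ Submodule.span E cl := by
    intro x
    rw [LinearMap.sum_apply]
    exact Submodule.sum_mem _ fun j hj => C.alg j (mem_filter.1 hj).2 _ (C.p_mem j x)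
  have e1 : ∀ F : M.V →ₗ[E] E, ctr F y = ctr (F ∘ₗ P) y := by
    intro F
    have h3 : F ∘ₗ P = ∑ j ∈ univ.filter C.Symm, F ∘ₗ C.p j := by
      apply LinearMap.ext
      intro x
      simp only [P, LinearMap.comp_apply, LinearMap.sum_apply, map_sum]
    rw [h3, ctr_sum, C.ctr_fn_sum F y, sum_filter]
    refine sum_congr rfl fun j _ => ?_
    split_ifs with hj
    · rfl
    · exact h j hj _ (C.isFn_pr j F)
  have hPa : ∀ x, P x = ∑ l, f l (P x) • a l := by
    intro x
    have h1 : P x ∈ Submodule.span E (Set.range a) :=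
      Submodule.span_le.2 (fun x hx => hd.span x hx) (hP x)
    have h2 : ∀ z ∈ Submodule.span E (Set.range a), z = ∑ l, f l z • a l := by
      intro z hz
      induction hz using Submodule.span_induction with
      | mem z hz =>
        obtain ⟨l, rfl⟩ := hz
        simp only [hd.dual, ite_smul, one_smul, zero_smul]
        rw [sum_ite_eq' univ l, if_pos (mem_univ _)]
      | zero => simp
      | add z w _ _ hz hw =>
        conv_lhs => rw [hz, hw]
        rw [← sum_add_distrib]
        exact sum_congr rfl fun l _ => by rw [map_add, add_smul]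
      | smul b z _ hz =>
        conv_lhs => rw [hz]
        rw [smul_sum]
        exact sum_congr rfl fun l _ => by rw [map_smul, smul_eq_mul, mul_smul]
    exact h2 _ h1
  let B := Module.finBasis E M.V
  have h4 : y = ∑ r, ext (B r) (ctr (B.coord r ∘ₗ P) y) := by
    conv_lhs => rw [expand B y]
    exact sum_congr rfl fun r _ => by rw [← e1]
  have h5 : ∀ y : (tens M M').V, ∑ r, ext (B r) (ctr (B.coord r ∘ₗ P) y) =
      ∑ l, ext (a l) (ctr (f l ∘ₗ P) y) := by
    intro y
    refine tens_ind (p := fun y => ∑ r, ext (B r) (ctr (B.coord r ∘ₗ P) y) =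
      ∑ l, ext (a l) (ctr (f l ∘ₗ P) y)) ?_ ?_ ?_ y
    · simp only [map_zero, ext_zero, sum_const_zero]
    · intro a a' ha ha'
      simp only [map_add, ext_add, sum_add_distrib, ha, ha']
    · intro x z
      simp only [ctr_ext, ext_smul, ← smul_ext, ← sum_ext]
      congr 1
      have e2 : ∀ x : M.V, ∑ r, B.coord r x • B r = x := fun x => B.sum_repr x
      exact (e2 (P x)).trans (hPa x)
  refine h4.trans ((h5 y).trans (sum_congr rfl fun l _ => ?_))
  rw [← e1]

variable {ι : Type} {N s : ι → ℕ} {X : ι → Rp E Γ} {cl : ∀ i, Set (X i).V} {Z : Rp E Γ}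

/-- **Fixed elements of products.** -/
theorem fixed_decompose (hv : IsValuation v) (hX : AreFermatFrob v φ N s X cl) {B : ℕ}
    (hZ : HasFewConjugates φ B Z) (hN : ∀ i, IsLarge (N i) (s i) B) {i : ι} {L : List ι}
    (hL : (i :: L).Nodup) {n : ℕ} {a : Fin n → (X i).V} {f : Fin n → ((X i).V →ₗ[E] E)}
    (hd : IsDualBasis φ (X i) (cl i) a f) {y : (prodOf X Z (i :: L)).V}
    (hy : (prodOf X Z (i :: L)).ap φ y = y) :
    y = ∑ l, ext (M := X i) (M' := prodOf X Z L) (a l) (ctr (M := X i) (f l) y) ∧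
      ∀ l, (prodOf X Z L).ap φ (ctr (M := X i) (M' := prodOf X Z L) (f l) y) =
        ctr (M := X i) (M' := prodOf X Z L) (f l) y := by
  classical
  obtain ⟨hp, c, hc, hX⟩ := hX
  choose n' V a' α h1 using hX
  have C : ∀ i, QData v φ (N i) (s i) (c i) (X i) (cl i) := fun i =>
    (exists_QData (h1 i) (hp i)).some
  constructor
  · obtain ⟨h2, h3⟩ := List.nodup_cons.1 hL
    obtain ⟨Q⟩ := exists_funs (Z := Z) C L h3
    have hi : i ∉ L.toFinset := fun h => h2 (List.mem_toFinset.1 h)
    refine (C i).decompose hd (M' := prodOf X Z L) ?_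
    intro j hj f hf
    apply Q.sep
    intro t ψ hψ
    by_contra hne
    have h3 : Q.Φ t = Q.Φ (Function.update t i (some j)) := Q.ext _ _ fun a ha => by
      rw [Function.update_of_ne (fun h4 : a = i => hi (h4 ▸ ha))]
    have h4 : ψ ∘ₗ ctr f ∈ (Funs.step C Q hi).Φ (Function.update t i (some j)) := by
      refine ⟨f, ?_, ψ, h3 ▸ hψ, rfl⟩
      rw [Function.update_self]
      exact ⟨j, rfl, hf⟩
    have h5 := (Funs.step C Q hi).frob _ _ h4 y
    have h6 : (tens (X i) (prodOf X Z L)).ap φ y = y := hy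
    rw [h6] at h5
    change ψ (ctr f y) = _ • Z.ap φ (ψ (ctr f y)) at h5
    set p := ∏ i' ∈ insert i L.toFinset, (C i').alO (Function.update t i (some j) i') with hpdef
    have hp0 : p ≠ 0 := prod_ne_zero_iff.2 fun i _ => (C i).alO_ne _
    have h7 : Z.ap φ (ψ (ctr f y)) = p⁻¹ • ψ (ctr f y) := by
      conv_rhs => rw [h5]
      rw [smul_smul, inv_mul_cancel₀ hp0, one_smul]
    refine hj (symm_of_prod C hv (fun S t => hc S t) (S := insert i L.toFinset)
      (τ := Function.update t i (some j)) (β := p⁻¹) (mul_inv_cancel₀ hp0)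
      (hZ _ _ hne h7) (mem_insert_self _ _) ?_ (hN i))
    rw [Function.update_self]
  · intro l
    have h2 := ctr_frob (M := X i) (M' := prodOf X Z L) (f := f l) (lam := 1) (φ := φ)
      (fun x => by rw [hd.frob, one_mul]) y
    have h6 : (tens (X i) (prodOf X Z L)).ap φ y = y := hy
    rw [h6, one_smul] at h2
    exact h2.symm

end Pool.Agent.U231.PF
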