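import Pool.Agent.U231.LT.Defs

/-!
# Varieties of Fermat type over finite fields: definitions

All spaces have an automorphism, the action of a fixed element `φ` of a group `Γ` (one can take `Γ = ℤ`
and `φ = 1`), the normalized Frobenius: on the cohomology group of degree `m` of a variety over a finite
field with `q` elements it is the Frobenius divided by the power with exponent `m` of a square root
of `q`.
-/

set_option autoImplicit false

open TensorProduct

namespace Pool.Agent.U231.PF

open Pool.Agent.Y95.ZT.S Pool.Agent.U231.LP Pool.Agent.U231.FT Pool.Agent.U231.LT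

variable {E : Type} [Field E] {Γ : Type} [Group Γ]

/-- The function `v` is a valuation, written additively. -/
def IsValuation (v : E → ℚ) : Prop := ∀ x y, x ≠ 0 → y ≠ 0 → v (x * y) = v x + v y

/-- The space `M` is the direct sum of subspaces `V i`, and every `V i` has a character `a i`, a
multiset of at most `s` residues modulo `N`. On `V i` the normalized Frobenius is the multiplication by
`α i`, a number with the valuation `∑ saw x / (2 N)`, where `x` runs through `a i`. If `c σ` is the power to
which the automorphism `σ` of the field of coefficients raises the roots of unity of order `N`, then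
the conjugate by `σ` of the square of the number for the character `a` is the square of the number for
`c σ • a`. If `a i = - a i` then `V i` is spanned by elements of `cl`. -/
structure IsFermatFrob (v : E → ℚ) (φ : Γ) (N s : ℕ) (c : (E ≃+* E) →* (ZMod N)ˣ) (M : Rp E Γ)
    (cl : Set M.V) {n : ℕ} (V : Fin n → Submodule E M.V) (a : Fin n → Multiset (ZMod N))
    (α : Fin n → E) : Prop where
  indep : iSupIndep V
  top : ∀ x, x ∈ iSup V
  card : ∀ i, (a i).card ≤ s
  eigen : ∀ i, ∀ x ∈ V i, M.ap φ x = α i • x
  ne : ∀ i, α i ≠ 0
  slope : ∀ i, (2 * N : ℚ) * v (α i) = ((a i).map saw).sum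
  conj : ∀ (σ : E ≃+* E) (i : Fin n), ∃ j, a j = (a i).map (fun x => (c σ : ZMod N) * x) ∧
    α j ^ 2 = σ (α i ^ 2)
  alg : ∀ i, (a i).map (fun x => -x) = a i → ∀ x ∈ V i, x ∈ Submodule.span E cl

/-- The spaces `M i` are of Fermat type of prime degrees `N i`, with at most `s i` entries in the
characters, and with independent characters `c i` of the group of the automorphisms of the field of
coefficients. -/
def AreFermatFrob (v : E → ℚ) (φ : Γ) {ι : Type} (N s : ι → ℕ) (M : ι → Rp E Γ)
    (cl : ∀ i, Set (M i).V) : Prop :=
  (∀ i, (N i).Prime) ∧ ∃ c : ∀ i, (E ≃+* E) →* (ZMod (N i))ˣ, IsIndependent c ∧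
    ∀ i, ∃ (n : ℕ) (V : Fin n → Submodule E (M i).V) (a : Fin n → Multiset (ZMod (N i)))
      (α : Fin n → E), IsFermatFrob v φ (N i) (s i) (c i) (M i) (cl i) V a α

/-- The square of every eigenvalue of the normalized Frobenius on `M` has at most `B` conjugates or
infinitely many (i.e. it is transcendental). -/
def HasFewConjugates (φ : Γ) (B : ℕ) (M : Rp E Γ) : Prop :=
  ∀ (β : E) (x : M.V), x ≠ 0 → M.ap φ x = β • x →
    (Set.range fun σ : E ≃+* E => σ (β ^ 2)).Infinite ∨
      (Set.range fun σ : E ≃+* E => σ (β ^ 2)).ncard ≤ B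

/-- The space `X i₁ ⊗ (X i₂ ⊗ (⋯ ⊗ Z))`. -/
noncomputable def prodOf {ι : Type} (X : ι → Rp E Γ) (Z : Rp E Γ) : List ι → Rp E Γ
  | [] => Z
  | i :: L => tens (X i) (prodOf X Z L)

/-- The elements `a l` of `cl` span all elements of `cl`, and the functionals `f l` in `fn`, which are
invariant under the Frobenius, are a dual basis. -/
structure IsDualBasis (φ : Γ) (M : Rp E Γ) (cl : Set M.V) {n : ℕ} (a : Fin n → M.V)
    (f : Fin n → (M.V →ₗ[E] E)) : Prop where
  span : ∀ x ∈ cl, x ∈ Submodule.span E (Set.range a)
  frob : ∀ l x, f l (M.ap φ x) = f l x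
  dual : ∀ l l', f l (a l') = if l = l' then 1 else 0

end Pool.Agent.U231.PF
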