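import Pool.Agent.U231.PF.Defs
import Pool.Agent.U231.LT.Fun

/-!
# Varieties of Fermat type over finite fields: the decomposition
-/

set_option autoImplicit false
set_option linter.unusedSectionVars false

open TensorProduct Finset

namespace Pool.Agent.U231.PF

open Pool.Agent.Y95.ZT.S Pool.Agent.U231.LP Pool.Agent.U231.FT Pool.Agent.U231.HF
  Pool.Agent.U231.LT

variable {E : Type} [Field E] {Γ : Type} [Group Γ]

/-- the data -/
structure QData (v : E → ℚ) (φ : Γ) (N s : ℕ) (c : (E ≃+* E) →* (ZMod N)ˣ) (M : Rp E Γ)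
    (cl : Set M.V) where
  n : ℕ
  V : Fin n → Submodule E M.V
  a : Fin n → Multiset (ZMod N)
  α : Fin n → E
  p : Fin n → Module.End E M.V
  p_of : ∀ i j y, y ∈ V j → p i y = if i = j then y else 0
  p_sum : ∀ y, ∑ i, p i y = y
  p_mem : ∀ i y, p i y ∈ V i
  card : ∀ i, (a i).card ≤ s
  eigen : ∀ i, ∀ x ∈ V i, M.ap φ x = α i • x
  ne : ∀ i, α i ≠ 0
  slope : ∀ i, (2 * N : ℚ) * v (α i) = ((a i).map saw).sum
  conj : ∀ (σ : E ≃+* E) (i : Fin n), ∃ j, a j = (a i).map (fun x => (c σ : ZMod N) * x) ∧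
    α j ^ 2 = σ (α i ^ 2)
  alg : ∀ i, (a i).map (fun x => -x) = a i → ∀ x ∈ V i, x ∈ Submodule.span E cl
  prime : N.Prime

theorem exists_QData {v : E → ℚ} {φ : Γ} {N s : ℕ} {c : (E ≃+* E) →* (ZMod N)ˣ} {M : Rp E Γ}
    {cl : Set M.V} {n : ℕ} {V : Fin n → Submodule E M.V} {a : Fin n → Multiset (ZMod N)}
    {α : Fin n → E} (h : IsFermatFrob v φ N s c M cl V a α) (hN : N.Prime) :
    Nonempty (QData v φ N s c M cl) := by
  have hU : DirectSum.IsInternal V :=
    (DirectSum.isInternal_submodule_iff_iSupIndep_and_iSup_eq_top V).2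
      ⟨h.indep, eq_top_iff.2 fun x _ => h.top x⟩
  obtain ⟨p, hpo, hps⟩ := exists_projectors' hU
  have hpm : ∀ i y, p i y ∈ V i := by
    intro i y
    have h1 : y ∈ ⨆ i, V i := hU.submodule_iSup_eq_top ▸ Submodule.mem_top
    induction h1 using Submodule.iSup_induction' with
    | mem j y hy =>
      rw [hpo i j y hy]
      split_ifs with h
      · exact h ▸ hy
      · exact Submodule.zero_mem _
    | zero => rw [map_zero]; exact Submodule.zero_mem _
    | add y z _ _ hy hz => rw [map_add]; exact Submodule.add_mem _ hy hz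
  exact ⟨⟨n, V, a, α, p, hpo, hps, hpm, h.card, h.eigen, h.ne, h.slope, h.conj, h.alg, hN⟩⟩

namespace QData

variable {v : E → ℚ} {φ : Γ} {N s : ℕ} {c : (E ≃+* E) →* (ZMod N)ˣ} {M : Rp E Γ} {cl : Set M.V}

/-- functionals supported at the index `i` -/
def IsFn (C : QData v φ N s c M cl) (i : Fin C.n) (f : M.V →ₗ[E] E) : Prop :=
  ∀ j, j ≠ i → ∀ x ∈ C.V j, f x = 0

theorem isFn_pr (C : QData v φ N s c M cl) (i : Fin C.n) (F : M.V →ₗ[E] E) :
    C.IsFn i (F ∘ₗ C.p i) := by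
  intro j hj x hx
  rw [LinearMap.comp_apply, C.p_of i j x hx, if_neg (Ne.symm hj), map_zero]

theorem fn_frob (C : QData v φ N s c M cl) {i : Fin C.n} {f : M.V →ₗ[E] E} (hf : C.IsFn i f)
    (x : M.V) : f (M.ap φ x) = C.α i * f x := by
  rw [← C.p_sum x, ap_sum, map_sum, map_sum, mul_sum]
  refine sum_congr rfl fun j _ => ?_
  rw [C.eigen j _ (C.p_mem j x), map_smul, smul_eq_mul]
  by_cases h : j = i
  · rw [h]
  · rw [hf j h _ (C.p_mem j x), mul_zero, mul_zero]

theorem ctr_fn_sum (C : QData v φ N s c M cl) {M' : Rp E Γ} (F : M.V →ₗ[E] E)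
    (y : (tens M M').V) : ctr F y = ∑ j, ctr (F ∘ₗ C.p j) y := by
  have h1 : F = ∑ j, F ∘ₗ C.p j := by
    apply LinearMap.ext
    intro x
    rw [LinearMap.sum_apply]
    conv_lhs => rw [← C.p_sum x, map_sum]
    rfl
  conv_lhs => rw [h1]
  exact ctr_sum univ (fun j => F ∘ₗ C.p j) y

theorem eq_zero_of_ctr (C : QData v φ N s c M cl) {M' : Rp E Γ} {y : (tens M M').V}
    (h : ∀ i f, C.IsFn i f → ctr f y = 0) : y = 0 := by
  rw [expand (Module.finBasis E M.V) y]
  refine sum_eq_zero fun r _ => ?_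
  rw [C.ctr_fn_sum, sum_eq_zero fun j _ => h j _ (C.isFn_pr j _), ext_zero]

/-- the character is symmetric -/
def Symm (C : QData v φ N s c M cl) (i : Fin C.n) : Prop := (C.a i).map (fun x => -x) = C.a i

/-- the indices, with an additional one -/
abbrev Ix (C : QData v φ N s c M cl) : Type := Option (Fin C.n)

/-- the eigenvalue -/
def alO (C : QData v φ N s c M cl) (o : C.Ix) : E := o.elim 1 C.α

/-- functionals supported at the index -/
def IsFnO (C : QData v φ N s c M cl) (o : C.Ix) (f : M.V →ₗ[E] E) : Prop :=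
  ∃ j, o = some j ∧ C.IsFn j f

theorem fnO_frob (C : QData v φ N s c M cl) {o : C.Ix} {f : M.V →ₗ[E] E} (hf : C.IsFnO o f)
    (x : M.V) : f (M.ap φ x) = C.alO o * f x := by
  obtain ⟨j, rfl, hf⟩ := hf
  exact C.fn_frob hf x

theorem alO_ne (C : QData v φ N s c M cl) (o : C.Ix) : C.alO o ≠ 0 := by
  cases o with
  | none => exact one_ne_zero
  | some j => exact C.ne j

/-- the saw sums of an index -/
def sa (C : QData v φ N s c M cl) (o : C.Ix) (t : ZMod N) : ℤ :=
  o.elim 0 fun j => sawSum (C.a j) t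

/-- conjugates -/
theorem conjO (C : QData v φ N s c M cl) (σ : E ≃+* E) (o : C.Ix) : ∃ o' : C.Ix,
    C.alO o' ^ 2 = σ (C.alO o ^ 2) ∧ ∀ t : ZMod N, C.sa o' t = C.sa o (t * (c σ : ZMod N)) := by
  cases o with
  | none =>
    refine ⟨none, ?_, fun t => rfl⟩
    change (1 : E) ^ 2 = σ ((1 : E) ^ 2)
    rw [one_pow, map_one]
  | some j =>
    obtain ⟨j', h1, h2⟩ := C.conj σ j
    refine ⟨some j', h2, fun t => ?_⟩
    change sawSum (C.a j') t = sawSum (C.a j) (t * (c σ : ZMod N))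
    rw [h1, sawSum, sawSum, Multiset.map_map]
    congr 1
    refine Multiset.map_congr rfl fun x _ => ?_
    rw [Function.comp_apply, mul_assoc]

theorem v_alO (C : QData v φ N s c M cl) (hv : IsValuation v) (o : C.Ix) :
    (2 * N : ℚ) * v (C.alO o) = C.sa o 1 := by
  cases o with
  | none =>
    change (2 * N : ℚ) * v 1 = ((0 : ℤ) : ℚ)
    have h1 := hv 1 1 one_ne_zero one_ne_zero
    rw [mul_one] at h1
    have h2 : v 1 = 0 := by linarith
    rw [h2, mul_zero, Int.cast_zero]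
  | some j =>
    change (2 * N : ℚ) * v (C.α j) = ((sawSum (C.a j) 1 : ℤ) : ℚ)
    rw [C.slope, sawSum]
    simp only [one_mul]
    rfl

end QData

variable {v : E → ℚ} {φ : Γ} {ι : Type} {N s : ι → ℕ} {X : ι → Rp E Γ} {cl : ∀ i, Set (X i).V}
  {Z : Rp E Γ} {c : ∀ i, (E ≃+* E) →* (ZMod (N i))ˣ}

/-- the functionals on a product with values in `Z` -/
structure Funs (C : ∀ i, QData v φ (N i) (s i) (c i) (X i) (cl i)) (Z : Rp E Γ) (S : Finset ι)
    (M : Rp E Γ) where
  Φ : (∀ i, (C i).Ix) → Set (M.V →ₗ[E] Z.V)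
  ext : ∀ τ τ', (∀ i ∈ S, τ i = τ' i) → Φ τ = Φ τ'
  frob : ∀ τ, ∀ ψ ∈ Φ τ, ∀ y, ψ (M.ap φ y) = (∏ i ∈ S, (C i).alO (τ i)) • Z.ap φ (ψ y)
  sep : ∀ y, (∀ τ, ∀ ψ ∈ Φ τ, ψ y = 0) → y = 0

/-- the basis -/
def Funs.base (C : ∀ i, QData v φ (N i) (s i) (c i) (X i) (cl i)) (Z : Rp E Γ) :
    Funs C Z ∅ Z where
  Φ _ := {LinearMap.id}
  ext _ _ _ := rfl
  frob := by
    rintro τ ψ rfl y
    simp
  sep := fun y h => h (fun _ => none) LinearMap.id rfl

/-- the Frobenius and contractions -/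
theorem ctr_frob {M M' : Rp E Γ} {f : M.V →ₗ[E] E} {lam : E} {φ : Γ}
    (hf : ∀ x, f (M.ap φ x) = lam * f x) (z : (tens M M').V) :
    ctr f ((tens M M').ap φ z) = lam • M'.ap φ (ctr f z) := by
  refine tens_ind (p := fun z => ctr f ((tens M M').ap φ z) = lam • M'.ap φ (ctr f z)) ?_ ?_ ?_ z
  · rw [ap_zero, map_zero, ap_zero, smul_zero]
  · intro a b ha hb
    rw [ap_add, map_add, map_add, ap_add, ha, hb, smul_add]
  · intro x y
    rw [tens_ap, ctr_ext, ctr_ext, hf, ap_smul, smul_smul]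

/-- one step -/
noncomputable def Funs.step (C : ∀ i, QData v φ (N i) (s i) (c i) (X i) (cl i)) [DecidableEq ι]
    {S : Finset ι} {M : Rp E Γ} (Q : Funs C Z S M) {i : ι} (hi : i ∉ S) :
    Funs C Z (insert i S) (tens (X i) M) where
  Φ τ := {ψ | ∃ f, (C i).IsFnO (τ i) f ∧ ∃ χ ∈ Q.Φ τ, ψ = χ ∘ₗ ctr f}
  ext := by
    intro τ τ' h
    have h3 : Q.Φ τ = Q.Φ τ' := Q.ext τ τ' fun a ha => h a (mem_insert_of_mem ha)
    rw [h3, h i (mem_insert_self i S)]
  frob := by
    rintro τ ψ ⟨f, hf, χ, hχ, rfl⟩ y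
    change χ (ctr f ((tens (X i) M).ap φ y)) = _ • Z.ap φ (χ (ctr f y))
    rw [ctr_frob ((C i).fnO_frob hf), map_smul, Q.frob τ χ hχ, smul_smul, prod_insert hi]
  sep := by
    intro y h
    apply (C i).eq_zero_of_ctr
    intro j f hf
    apply Q.sep
    intro τ χ hχ
    have h3 : Q.Φ τ = Q.Φ (Function.update τ i (some j)) := Q.ext _ _ fun a ha => by
      rw [Function.update_of_ne (fun h4 : a = i => hi (h4 ▸ ha))]
    refine h (Function.update τ i (some j)) (χ ∘ₗ ctr f) ⟨f, ?_, χ, h3 ▸ hχ, rfl⟩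
    rw [Function.update_self]
    exact ⟨j, rfl, hf⟩

/-- products have functionals -/
theorem exists_funs [DecidableEq ι] (C : ∀ i, QData v φ (N i) (s i) (c i) (X i) (cl i))
    (L : List ι) (hL : L.Nodup) : Nonempty (Funs C Z L.toFinset (prodOf X Z L)) := by
  induction L with
  | nil => exact ⟨Funs.base C Z⟩
  | cons i L ih =>
    obtain ⟨h1, h2⟩ := List.nodup_cons.1 hL
    obtain ⟨Q⟩ := ih h2
    have h3 : i ∉ L.toFinset := fun h => h1 (List.mem_toFinset.1 h)
    rw [List.toFinset_cons]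
    exact ⟨Funs.step C Q h3⟩

/-- **The arithmetic.** A number `β` with few conjugates is not the inverse of a product of the
eigenvalues for characters which are not all symmetric. -/
theorem symm_of_prod (C : ∀ i, QData v φ (N i) (s i) (c i) (X i) (cl i)) (hv : IsValuation v)
    (hc : ∀ (S : Finset ι) (t : ∀ i, (ZMod (N i))ˣ), ∃ g, ∀ i ∈ S, c i g = t i) {S : Finset ι}
    {τ : ∀ i, (C i).Ix} {β : E} (hβ : (∏ i ∈ S, (C i).alO (τ i)) * β = 1) {B : ℕ}
    (hB : (Set.range fun σ : E ≃+* E => σ (β ^ 2)).Infinite ∨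
      (Set.range fun σ : E ≃+* E => σ (β ^ 2)).ncard ≤ B)
    {i₀ : ι} (hi₀ : i₀ ∈ S) {j : Fin (C i₀).n} (hj : τ i₀ = some j)
    (hN : IsLarge (N i₀) (s i₀) B) : (C i₀).Symm j := by
  classical
  have hp : Fact (N i₀).Prime := ⟨(C i₀).prime⟩
  -- the stabilizer
  let G := (ZMod (N i₀))ˣ
  let H : Subgroup G :=
    { carrier := {h | ∀ t : G, sawSum ((C i₀).a j) ((t : ZMod (N i₀)) * (h : G)) =
        sawSum ((C i₀).a j) t}
      mul_mem' := by
        intro h h' h1 h2 t
        rw [Units.val_mul, mul_comm (h : ZMod (N i₀)), ← mul_assoc, ← Units.val_mul t h', h1,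
          Units.val_mul, h2]
      one_mem' := by
        intro t
        rw [Units.val_one, mul_one]
      inv_mem' := by
        intro h h1 t
        have h2 := h1 (t * h⁻¹)
        rw [← Units.val_mul, inv_mul_cancel_right, Units.val_mul] at h2
        exact h2.symm }
  refine symm_of_index' ((C i₀).card j) H (fun h hh t => hh t) ?_ hN
  -- the conjugates
  have hfo : ∀ (σ : E ≃+* E), ∃ τ' : ∀ i, (C i).Ix,
      (∏ i ∈ S, (C i).alO (τ' i)) ^ 2 * σ (β ^ 2) = 1 ∧
        ∀ i, ∀ t : ZMod (N i), (C i).sa (τ' i) t = (C i).sa (τ i) (t * (c i σ : ZMod (N i))) := by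
    intro σ
    choose τ' h1 h2 using fun i => (C i).conjO σ (τ i)
    refine ⟨τ', ?_, h2⟩
    rw [← prod_pow, prod_congr rfl fun i _ => h1 i, ← map_prod, prod_pow, ← map_mul, ← mul_pow, hβ,
      one_pow, map_one]
  choose τc hτ1 hτ2 using hfo
  -- there are only finitely many
  have hfin : (Set.range fun σ : E ≃+* E => σ (β ^ 2)).Finite := by
    have h1 : (Set.range fun σ : E ≃+* E => σ (β ^ 2)) ⊆
        Set.range fun τ' : ∀ i : S, (C i).Ix => ((∏ i : S, (C i).alO (τ' i)) ^ 2)⁻¹ := by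
      rintro _ ⟨σ, rfl⟩
      refine ⟨fun i => τc σ i, ?_⟩
      have h2 : ∏ i : S, (C (i : ι)).alO (τc σ i) = ∏ i ∈ S, (C i).alO (τc σ i) :=
        prod_coe_sort S fun i => (C i).alO (τc σ i)
      change ((∏ i : S, (C (i : ι)).alO (τc σ i)) ^ 2)⁻¹ = σ (β ^ 2)
      rw [h2]
      exact inv_eq_of_mul_eq_one_right (hτ1 σ)
    exact (Set.finite_range _).subset h1
  have hB' := hB.resolve_left (fun h => h hfin)
  -- the valuations of the conjugates
  have hval : ∀ σ : E ≃+* E, v (σ (β ^ 2)) =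
      -2 * ∑ i ∈ S, ((C i).sa (τ i) (c i σ : ZMod (N i)) : ℚ) / (2 * N i) := by
    intro σ
    have hv1 : v 1 = 0 := by
      have h1 := hv 1 1 one_ne_zero one_ne_zero
      rw [mul_one] at h1
      linarith
    have hprod : ∀ T : Finset ι, v (∏ i ∈ T, (C i).alO (τc σ i)) =
        ∑ i ∈ T, ((C i).sa (τ i) (c i σ : ZMod (N i)) : ℚ) / (2 * N i) := by
      intro T
      induction T using Finset.induction_on with
      | empty => rw [prod_empty, sum_empty, hv1]
      | insert i T hi ih =>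
        rw [prod_insert hi, sum_insert hi, hv _ _ ((C i).alO_ne _)
          (prod_ne_zero_iff.2 fun i _ => (C i).alO_ne _), ih]
        congr 1
        have h3 := (C i).v_alO hv (τc σ i)
        have h4 := hτ2 σ i 1
        rw [one_mul] at h4
        rw [h4] at h3
        have h6 : (2 * (N i : ℚ)) ≠ 0 := by
          have : (N i : ℚ) ≠ 0 := by exact_mod_cast (C i).prime.ne_zero
          positivity
        rw [eq_div_iff h6, mul_comm]
        exact h3
    have hP : ∏ i ∈ S, (C i).alO (τc σ i) ≠ 0 := prod_ne_zero_iff.2 fun i _ => (C i).alO_ne _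
    have hne : σ (β ^ 2) ≠ 0 := right_ne_zero_of_mul_eq_one (hτ1 σ)
    have h5 := hv _ _ (pow_ne_zero 2 hP) hne
    rw [hτ1 σ, hv1, pow_two, hv _ _ hP hP, hprod S] at h5
    linarith
  -- the group elements
  choose g hg using fun q : G => hc S fun i => if h : i = i₀ then h ▸ q else 1
  have hg0 : ∀ q, c i₀ (g q) = q := fun q => by rw [hg q i₀ hi₀, dif_pos rfl]
  have hg1 : ∀ q, ∀ i ∈ S, i ≠ i₀ → c i (g q) = 1 := fun q i hi h => by
    rw [hg q i hi, dif_neg h]
  let u : G ⧸ H → (Set.range fun σ : E ≃+* E => σ (β ^ 2)) := fun q =>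
    ⟨g q.out (β ^ 2), ⟨g q.out, rfl⟩⟩
  have hu : Function.Injective u := by
    intro q q' hqq
    rw [← QuotientGroup.out_eq' q, ← QuotientGroup.out_eq' q', QuotientGroup.eq]
    have h1 : g q.out (β ^ 2) = g q'.out (β ^ 2) := congrArg Subtype.val hqq
    have h2 : ∀ w : E ≃+* E, v ((w * g q.out) (β ^ 2)) = v ((w * g q'.out) (β ^ 2)) := by
      intro w
      change v (w (g q.out (β ^ 2))) = v (w (g q'.out (β ^ 2)))
      rw [h1]
    have h3 : ∀ w : E ≃+* E, sawSum ((C i₀).a j) ((c i₀ w * q.out : G) : ZMod (N i₀)) =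
        sawSum ((C i₀).a j) ((c i₀ w * q'.out : G) : ZMod (N i₀)) := by
      intro w
      have h4 := h2 w
      rw [hval, hval, ← Finset.sum_erase_add S _ hi₀, ← Finset.sum_erase_add S _ hi₀, hj] at h4
      have h5 : ∑ i ∈ S.erase i₀, ((C i).sa (τ i) (c i (w * g q.out) : ZMod (N i)) : ℚ) /
          (2 * N i) = ∑ i ∈ S.erase i₀, ((C i).sa (τ i) (c i (w * g q'.out) : ZMod (N i)) : ℚ) /
          (2 * N i) := by
        refine sum_congr rfl fun i hi => ?_
        rw [map_mul, map_mul, hg1 _ i (mem_of_mem_erase hi) (ne_of_mem_erase hi),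
          hg1 _ i (mem_of_mem_erase hi) (ne_of_mem_erase hi)]
      rw [h5] at h4
      have h6 : (2 * (N i₀ : ℚ)) ≠ 0 := by
        have : (N i₀ : ℚ) ≠ 0 := by exact_mod_cast (C i₀).prime.ne_zero
        positivity
      have h7 := add_left_cancel (mul_left_cancel₀ (by norm_num) h4)
      rw [div_left_inj' h6] at h7
      rw [map_mul, map_mul, hg0, hg0] at h7
      exact_mod_cast h7
    intro t
    obtain ⟨w, hw⟩ := hc {i₀} fun i => if h : i = i₀ then h ▸ ((q.out : G)⁻¹ * t) else 1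
    have hw' := hw i₀ (mem_singleton_self _)
    rw [dif_pos rfl] at hw'
    have h8 := h3 w
    rw [hw'] at h8
    have e1 : ((q.out : G)⁻¹ * t) * q.out = t := by
      rw [mul_comm, mul_inv_cancel_left]
    have e2 : ((q.out : G)⁻¹ * t) * q'.out = t * (q.out⁻¹ * q'.out) := by
      rw [mul_comm ((q.out : G)⁻¹) t, mul_assoc]
    rw [e1, e2, Units.val_mul] at h8
    exact h8.symm
  have : Finite (Set.range fun σ : E ≃+* E => σ (β ^ 2)) := hfin
  have h2 := Nat.card_le_card_of_injective u hu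
  rw [Subgroup.index]
  exact h2.trans hB'

end Pool.Agent.U231.PF
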