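import Pool.Agent.U231.PF.VTDefs

/-!
# The image of the cycle class map: definitions
-/

set_option autoImplicit false

open TensorProduct

namespace Pool.Agent.U231.PF

open Pool.Agent.Y95.ZT.S Pool.Agent.U231.LT

variable {E : Type} [Field E] [CharZero E] {Γ : Type} [Group Γ] {ι : Type}

/-- The set `cl L r` consists of the classes of the cycles of codimension `r` with rational
coefficients on `X i₁ × (X i₂ × (⋯ × Z))`: it is a rational vector space, and compatible with the
external products with classes of cycles on `X i`, and with the push-forwards to the second factor of the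
products with cycles on `X i` (which vanish if the codimension is negative); such classes are
invariant under the normalized Frobenius. -/
structure AreCycleClasses (φ : Γ) (X : ι → Rp E Γ) (Z : Rp E Γ) (clX : ∀ i, ℕ → Set (X i).V)
    (fn : ∀ i, ℕ → Set ((X i).V →ₗ[E] E)) (cl : ∀ L : List ι, ℕ → Set (prodOf X Z L).V) :
    Prop where
  zero : ∀ L r, 0 ∈ cl L r
  add : ∀ L r, ∀ x ∈ cl L r, ∀ y ∈ cl L r, x + y ∈ cl L r
  smul : ∀ L r (c : ℚ), ∀ y ∈ cl L r, (c : E) • y ∈ cl L r
  ext : ∀ (i : ι) (L : List ι) (c r : ℕ), ∀ a ∈ clX i c, ∀ y ∈ cl L r,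
    ext (M' := prodOf X Z L) a y ∈ cl (i :: L) (c + r)
  push : ∀ (i : ι) (L : List ι) (c r : ℕ), ∀ f ∈ fn i c, ∀ y ∈ cl (i :: L) (c + r),
    ctr (M' := prodOf X Z L) f y ∈ cl L r
  neg : ∀ (i : ι) (L : List ι) (c r : ℕ), r < c → ∀ f ∈ fn i c, ∀ y ∈ cl (i :: L) r,
    ctr (M' := prodOf X Z L) f y = 0
  fixed : ∀ L r, ∀ y ∈ cl L r, (prodOf X Z L).ap φ y = y

/-- The vectors `y t` are linearly independent over the rational numbers. -/
def RatIndep {V : Type} [AddCommGroup V] [Module E V] {n : ℕ} (y : Fin n → V) : Prop :=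
  ∀ c : Fin n → ℚ, ∑ t, (c t : E) • y t = 0 → ∀ t, c t = 0

/-- Classes of cycles of codimension `r` (with rational coefficients) which are linearly independent
over `ℚ` are linearly independent over `E`. -/
def ImageInjective {X : ι → Rp E Γ} {Z : Rp E Γ}
    (cl : ∀ L : List ι, ℕ → Set (prodOf X Z L).V) (L : List ι) (r : ℕ) : Prop :=
  ∀ (n : ℕ) (y : Fin n → (prodOf X Z L).V), (∀ t, y t ∈ cl L r) → RatIndep (E := E) y →
    LinearIndependent E y

end Pool.Agent.U231.PF
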