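import Pool.Agent.U231.PF.VTDefs
import Pool.Agent.U231.PF.Dec

/-!
# The crystalline variational Tate conjecture: the theorem
-/

set_option autoImplicit false
set_option linter.unusedSectionVars false

open TensorProduct Finset

namespace Pool.Agent.U231.PF

open Pool.Agent.Y95.ZT.S Pool.Agent.U231.LP Pool.Agent.U231.FT Pool.Agent.U231.HF
  Pool.Agent.U231.LT

variable {E : Type} [Field E] {Γ : Type} [Group Γ] {v : E → ℚ} {φ : Γ} {ι : Type}
  {N s dim : ι → ℕ} {X : ι → Rp E Γ} {Z : Rp E Γ} {clX : ∀ i, ℕ → Set (X i).V}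
  {fn : ∀ i, ℕ → Set ((X i).V →ₗ[E] E)} {cl : ∀ L : List ι, ℕ → Set (prodOf X Z L).V}

theorem IsCondition.sum {P : ∀ L : List ι, ℕ → Set (prodOf X Z L).V}
    (h : IsCondition X Z clX fn P) {L : List ι} {r : ℕ} {κ : Type*} (S : Finset κ)
    (y : κ → (prodOf X Z L).V) (hy : ∀ l ∈ S, y l ∈ P L r) : ∑ l ∈ S, y l ∈ P L r := by
  classical
  induction S using Finset.induction_on with
  | empty => rw [sum_empty]; exact h.zero L r
  | insert a S ha ih =>
    rw [sum_insert ha]
    exact h.add L r _ (hy a (mem_insert_self a S)) _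
      (ih fun l hl => hy l (mem_insert_of_mem hl))

/-- **The classes on `Z` which decide.** -/
theorem decided (hv : IsValuation v) (hX : IsFermatFamily v φ N s dim X clX fn) {B : ℕ}
    (hZ : HasFewConjugates φ B Z) (hN : ∀ i, IsLarge (N i) (s i) B)
    (hc : AreClasses φ X Z clX fn cl) :
    ∀ (L : List ι), L.Nodup → ∀ (r : ℕ), ∀ y ∈ cl L r,
      IsDecided clX fn cl L (L.map dim).sum r y
  | [], _, r, y, hy => by
    refine ⟨{(r, y)}, Set.finite_singleton _, ?_, fun P _ => ?_⟩
    · rintro _ rfl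
      exact ⟨le_rfl, by simp, hy⟩
    · constructor
      · rintro h _ rfl
        exact h
      · intro h
        exact h (r, y) rfl
  | i :: L, hL, r, y, hy => by
    obtain ⟨n, a, f, hd, hj⟩ := (hX.factor i).basis
    choose j hj1 hj2 hj3 using hj
    obtain ⟨h1, h2⟩ := fixed_decompose hv hX.type hZ hN hL hd (hc.fixed _ r y hy)
    have h3 : ∀ l, j l ≤ r → ctr (M := X i) (M' := prodOf X Z L) (f l) y ∈ cl L (r - j l) := by
      intro l hl
      refine hc.cond.push i L (j l) (r - j l) _ (hj3 l) y ?_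
      rwa [Nat.add_sub_cancel' hl]
    have h4 : ∀ l, ¬ j l ≤ r → ctr (M := X i) (M' := prodOf X Z L) (f l) y = 0 :=
      fun l hl => hc.neg i L (j l) r (not_le.1 hl) _ (hj3 l) y hy
    have ih := fun l (hl : j l ≤ r) =>
      decided hv hX hZ hN hc L (List.nodup_cons.1 hL).2 _ _ (h3 l hl)
    choose T hT1 hT2 hT3 using ih
    refine ⟨⋃ l, ⋃ hl : j l ≤ r, T l hl, Set.finite_iUnion fun l => Set.finite_iUnion fun hl =>
      hT1 l hl, ?_, fun P hP => ?_⟩
    · intro t ht
      obtain ⟨l, ht⟩ := Set.mem_iUnion.1 ht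
      obtain ⟨hl, ht⟩ := Set.mem_iUnion.1 ht
      have h5 := hT2 l hl t ht
      have h6 := hj1 l
      rw [List.map_cons, List.sum_cons]
      exact ⟨by omega, by omega, h5.2.2⟩
    · have key : y ∈ P (i :: L) r ↔ ∀ l, j l ≤ r →
          ctr (M := X i) (M' := prodOf X Z L) (f l) y ∈ P L (r - j l) := by
        constructor
        · intro h l hl
          refine hP.push i L (j l) (r - j l) _ (hj3 l) y ?_
          rwa [Nat.add_sub_cancel' hl]
        · intro h
          rw [h1]
          refine hP.sum (L := i :: L) univ _ fun l _ => ?_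
          by_cases hl : j l ≤ r
          · have h5 := hP.ext i L (j l) (r - j l) _ (hj2 l) _ (h l hl)
            rwa [Nat.add_sub_cancel' hl] at h5
          · rw [h4 l hl, ext_zero]
            exact hP.zero (i :: L) r
      rw [key]
      constructor
      · intro h t ht
        obtain ⟨l, ht⟩ := Set.mem_iUnion.1 ht
        obtain ⟨hl, ht⟩ := Set.mem_iUnion.1 ht
        exact (hT3 l hl P hP).1 (h l hl) t ht
      · intro h l hl
        exact (hT3 l hl P hP).2 fun t ht => h t (Set.mem_iUnion.2 ⟨l, Set.mem_iUnion.2 ⟨hl, ht⟩⟩)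

/-- **Pull-backs of classes.** -/
theorem exists_pull (hX : IsFermatFamily v φ N s dim X clX fn)
    (hc : AreClasses φ X Z clX fn cl) {j : ℕ} {z : (prodOf X Z []).V} (hz : z ∈ cl [] j) :
    ∀ (L : List ι) (r : ℕ), j ≤ r → r ≤ j + (L.map dim).sum → ∃ y ∈ cl L r,
      ∀ P, IsCondition X Z clX fn P → (y ∈ P L r ↔ z ∈ P [] j)
  | [], r, h1, h2 => by
    have h3 : r = j := by
      rw [List.map_nil, List.sum_nil] at h2
      omega
    subst h3
    exact ⟨z, hz, fun _ _ => Iff.rfl⟩
  | i :: L, r, h1, h2 => by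
    rw [List.map_cons, List.sum_cons] at h2
    obtain ⟨c, hc1, hc2, hc3, hc4⟩ : ∃ c, c ≤ dim i ∧ c ≤ r ∧ j ≤ r - c ∧
        r - c ≤ j + (L.map dim).sum := ⟨min (dim i) (r - j), by omega, by omega, by omega, by omega⟩
    obtain ⟨w, hw, hwP⟩ := exists_pull hX hc hz L (r - c) hc3 hc4
    obtain ⟨x, hx, f, hf, hfx⟩ := (hX.factor i).plane c hc1
    have h5 := hc.cond.ext i L c (r - c) x hx w hw
    rw [Nat.add_sub_cancel' hc2] at h5
    refine ⟨_, h5, fun P hP => ?_⟩
    rw [← hwP P hP]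
    constructor
    · intro h
      have h6 := hP.push i L c (r - c) f hf (ext (M' := prodOf X Z L) x w)
        (by rwa [Nat.add_sub_cancel' hc2])
      rwa [ctr_ext, hfx, one_smul] at h6
    · intro h
      have h6 := hP.ext i L c (r - c) x hx w h
      rwa [Nat.add_sub_cancel' hc2] at h6

/-- **The theorem.** -/
theorem implies_iff (hv : IsValuation v) (hX : IsFermatFamily v φ N s dim X clX fn) {B : ℕ}
    (hZ : HasFewConjugates φ B Z) (hN : ∀ i, IsLarge (N i) (s i) B)
    (hc : AreClasses φ X Z clX fn cl) {P P' : ∀ L : List ι, ℕ → Set (prodOf X Z L).V}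
    (hP : IsCondition X Z clX fn P) (hP' : IsCondition X Z clX fn P') {L : List ι}
    (hL : L.Nodup) (r : ℕ) :
    Implies cl P P' L r ↔ ∀ j ≤ r, r ≤ j + (L.map dim).sum → Implies cl P P' [] j := by
  constructor
  · intro h j hj1 hj2 z hz hzP
    obtain ⟨y, hy, hyP⟩ := exists_pull hX hc hz L r hj1 hj2
    exact (hyP P' hP').1 (h y hy ((hyP P hP).2 hzP))
  · intro h y hy hyP
    obtain ⟨T, -, hT, hTP⟩ := decided hv hX hZ hN hc L hL r y hy
    exact (hTP P' hP').2 fun t ht => h t.1 (hT t ht).1 (hT t ht).2.1 t.2 (hT t ht).2.2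
      ((hTP P hP).1 hyP t ht)

end Pool.Agent.U231.PF
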