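import Pool.Agent.U231.PF.ImDefs
import Pool.Agent.U231.PF.VTFin

/-!
# The image of the cycle class map: the theorem
-/

set_option autoImplicit false
set_option linter.unusedSectionVars false

open TensorProduct Finset

namespace Pool.Agent.U231.PF

open Pool.Agent.Y95.ZT.S Pool.Agent.U231.LP Pool.Agent.U231.FT Pool.Agent.U231.HF
  Pool.Agent.U231.LT

section linear

variable {E : Type} [Field E] [CharZero E] {V W : Type} [AddCommGroup V] [Module E V]
  [AddCommGroup W] [Module E W]

/-- rational bases of finitely many vectors -/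
theorem exists_rat_basis {A : Set W} (h0 : (0 : W) ∈ A) (ha : ∀ x ∈ A, ∀ y ∈ A, x + y ∈ A)
    (hs : ∀ (c : ℚ), ∀ y ∈ A, (c : E) • y ∈ A) {n : ℕ} (z : Fin n → W) (hz : ∀ t, z t ∈ A) :
    ∃ (m : ℕ) (w : Fin m → W) (c : Fin n → Fin m → ℚ), (∀ u, w u ∈ A) ∧ RatIndep (E := E) w ∧
      ∀ t, z t = ∑ u, (c t u : E) • w u := by
  let _ : Module ℚ W := Module.compHom W (algebraMap ℚ E)
  have hsm : ∀ (c : ℚ) (x : W), c • x = (c : E) • x := by
    intro c x
    change (algebraMap ℚ E c) • x = _
    rw [eq_ratCast]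
  let S : Submodule ℚ W := Submodule.span ℚ (Set.range z)
  have hfd : FiniteDimensional ℚ S := FiniteDimensional.span_of_finite ℚ (Set.finite_range z)
  let b := Module.finBasis ℚ S
  have hSA : ∀ x ∈ S, x ∈ A := by
    intro x hx
    induction hx using Submodule.span_induction with
    | mem x hx =>
      obtain ⟨t, rfl⟩ := hx
      exact hz t
    | zero => exact h0
    | add x y _ _ hx hy => exact ha x hx y hy
    | smul c x _ hx => rw [hsm]; exact hs c x hx
  refine ⟨_, fun u => (b u : W), fun t u => b.repr ⟨z t, Submodule.subset_span ⟨t, rfl⟩⟩ u,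
    fun u => hSA _ (b u).2, ?_, fun t => ?_⟩
  · intro c hc
    have h1 : ∑ u, c u • b u = 0 := by
      apply Subtype.ext
      rw [Submodule.coe_sum, Submodule.coe_zero, ← hc]
      exact sum_congr rfl fun u _ => by rw [Submodule.coe_smul, hsm]
    exact Fintype.linearIndependent_iff.1 b.linearIndependent c h1
  · have h1 := b.sum_repr ⟨z t, Submodule.subset_span ⟨t, rfl⟩⟩
    have h2 := congrArg (Subtype.val (p := fun x => x ∈ S)) h1
    rw [Submodule.coe_sum] at h2
    refine h2.symm.trans ?_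
    exact sum_congr rfl fun u _ => by rw [Submodule.coe_smul, hsm]

/-- **Independence can be tested on components.** -/
theorem indep_of_components {κ : Type} [Fintype κ] (T : κ → (V →ₗ[E] W)) {A : κ → Set W}
    (h0 : ∀ l, (0 : W) ∈ A l) (ha : ∀ l, ∀ x ∈ A l, ∀ y ∈ A l, x + y ∈ A l)
    (hs : ∀ l (c : ℚ), ∀ y ∈ A l, (c : E) • y ∈ A l)
    (hA : ∀ l (m : ℕ) (w : Fin m → W), (∀ u, w u ∈ A l) → RatIndep (E := E) w →
      LinearIndependent E w) {n : ℕ} (y : Fin n → V) (hyA : ∀ l t, T l (y t) ∈ A l)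
    (hinj : ∀ c : Fin n → ℚ, (∀ l, T l (∑ t, (c t : E) • y t) = 0) →
      ∑ t, (c t : E) • y t = 0) (hy : RatIndep (E := E) y) : LinearIndependent E y := by
  classical
  choose m w c hw1 hw2 hw3 using fun l =>
    exists_rat_basis (E := E) (h0 l) (ha l) (hs l) (fun t => T l (y t)) (hyA l)
  have hw : ∀ l, LinearIndependent E (w l) := fun l => hA l _ _ (hw1 l) (hw2 l)
  -- the coordinates of combinations
  have e1 : ∀ (lam : Fin n → E) l, T l (∑ t, lam t • y t) =
      ∑ u, (∑ t, lam t * (c l t u : E)) • w l u := by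
    intro lam l
    rw [map_sum]
    have h1 : ∀ t, T l (lam t • y t) = ∑ u, (lam t * (c l t u : E)) • w l u := by
      intro t
      rw [map_smul, hw3 l t, smul_sum]
      exact sum_congr rfl fun u _ => by rw [smul_smul]
    rw [sum_congr rfl fun t _ => h1 t, sum_comm]
    exact sum_congr rfl fun u _ => by rw [sum_smul]
  -- the rational matrix
  let U := Σ l, Fin (m l)
  let C : Fin n → (U → ℚ) := fun t x => c x.1 t x.2
  have hC : LinearIndependent ℚ C := by
    rw [Fintype.linearIndependent_iff]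
    intro μ hμ
    apply hy μ
    apply hinj
    intro l
    rw [e1 (fun t => (μ t : E)) l]
    refine sum_eq_zero fun u _ => ?_
    have h2 : ∑ t, μ t * c l t u = 0 := by
      have h3 := congrFun hμ ⟨l, u⟩
      rw [Finset.sum_apply] at h3
      exact h3
    have h4 : ∑ t, (μ t : E) * (c l t u : E) = 0 := by
      have h5 := congrArg (fun x : ℚ => (x : E)) h2
      simp only [Rat.cast_sum, Rat.cast_mul, Rat.cast_zero] at h5
      exact h5
    rw [h4, zero_smul]
  obtain ⟨F, hF⟩ := exists_dual hC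
  rw [Fintype.linearIndependent_iff]
  intro lam hlam t'
  have h1 : ∀ x : U, ∑ t, lam t * (C t x : E) = 0 := by
    rintro ⟨l, u⟩
    have h2 := e1 lam l
    rw [hlam, map_zero] at h2
    exact Fintype.linearIndependent_iff.1 (hw l) _ h2.symm u
  have h2 : ∀ t, F t' (C t) = ∑ x, C t x * F t' (Pi.single x 1) := by
    intro t
    conv_lhs => rw [← Finset.univ_sum_single (C t), map_sum]
    refine sum_congr rfl fun x _ => ?_
    rw [← smul_eq_mul, ← map_smul, ← Pi.single_smul, smul_eq_mul, mul_one]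
  have h3 : ∑ t, lam t * ((F t' (C t) : ℚ) : E) = 0 := by
    have h4 : ∑ t, lam t * ((F t' (C t) : ℚ) : E) =
        ∑ x, (∑ t, lam t * (C t x : E)) * ((F t' (Pi.single x 1) : ℚ) : E) := by
      simp only [h2, Rat.cast_sum, Rat.cast_mul, mul_sum, sum_mul]
      rw [sum_comm]
      exact sum_congr rfl fun x _ => sum_congr rfl fun t _ => by ring
    rw [h4]
    exact sum_eq_zero fun x _ => by rw [h1, zero_mul]
  rw [sum_eq_single t'] at h3
  · rwa [hF, if_pos rfl, Rat.cast_one, mul_one] at h3
  · intro t _ ht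
    rw [hF, if_neg (Ne.symm ht), Rat.cast_zero, mul_zero]
  · intro h
    exact absurd (mem_univ _) h

end linear

variable {E : Type} [Field E] [CharZero E] {Γ : Type} [Group Γ] {v : E → ℚ} {φ : Γ} {ι : Type}
  {N s dim : ι → ℕ} {X : ι → Rp E Γ} {Z : Rp E Γ} {clX : ∀ i, ℕ → Set (X i).V}
  {fn : ∀ i, ℕ → Set ((X i).V →ₗ[E] E)} {cl : ∀ L : List ι, ℕ → Set (prodOf X Z L).V}

/-- **One step.** -/
theorem image_step (hv : IsValuation v) (hX : IsFermatFamily v φ N s dim X clX fn) {B : ℕ}
    (hZ : HasFewConjugates φ B Z) (hN : ∀ i, IsLarge (N i) (s i) B)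
    (hc : AreCycleClasses φ X Z clX fn cl) {i : ι} {L : List ι} (hL : (i :: L).Nodup) (r : ℕ)
    (h : ∀ c ≤ dim i, c ≤ r → ImageInjective cl L (r - c)) : ImageInjective cl (i :: L) r := by
  classical
  obtain ⟨n, a, f, hd, hj⟩ := (hX.factor i).basis
  choose j hj1 hj2 hj3 using hj
  intro m y hy1 hy2
  have hcomb : ∀ (c : Fin m → ℚ), ∑ t, (c t : E) • y t ∈ cl (i :: L) r := by
    intro c
    have h1 : ∀ S : Finset (Fin m), ∑ t ∈ S, (c t : E) • y t ∈ cl (i :: L) r := by
      intro S
      induction S using Finset.induction_on with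
      | empty => rw [sum_empty]; exact hc.zero _ r
      | insert a S ha ih =>
        rw [sum_insert ha]
        exact hc.add _ r _ (hc.smul _ r _ _ (hy1 a)) _ ih
    exact h1 univ
  refine indep_of_components (E := E) (κ := {l : Fin n // j l ≤ r})
    (fun l => ctr (M := X i) (M' := prodOf X Z L) (f l)) (A := fun l => cl L (r - j l))
    (fun l => hc.zero L _) (fun l => hc.add L _) (fun l => hc.smul L _)
    (fun l => h (j l) (hj1 l) l.2) y ?_ ?_ hy2
  · intro l t
    refine hc.push i L (j l) (r - j l) _ (hj3 l) (y t) ?_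
    rw [Nat.add_sub_cancel' l.2]
    exact hy1 t
  · intro c h0
    have h1 := (fixed_decompose hv hX.type hZ hN hL hd (hc.fixed _ r _ (hcomb c))).1
    refine h1.trans ?_
    refine sum_eq_zero fun l _ => ?_
    by_cases hl : j l ≤ r
    · have h2 := h0 ⟨l, hl⟩
      exact (congrArg (ext (M := X i) (M' := prodOf X Z L) (a l)) h2).trans (ext_zero _)
    · have h2 := hc.neg i L (j l) r (not_le.1 hl) _ (hj3 l) _ (hcomb c)
      exact (congrArg (ext (M := X i) (M' := prodOf X Z L) (a l)) h2).trans (ext_zero _)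

/-- the converse -/
theorem image_pull (hX : IsFermatFamily v φ N s dim X clX fn)
    (hc : AreCycleClasses φ X Z clX fn cl) {i : ι} {L : List ι} {r c : ℕ} (hc1 : c ≤ dim i)
    (hc2 : c ≤ r) (h : ImageInjective cl (i :: L) r) : ImageInjective cl L (r - c) := by
  intro n z hz1 hz2
  obtain ⟨x, hx, f, hf, hfx⟩ := (hX.factor i).plane c hc1
  let T : (prodOf X Z L).V →ₗ[E] (prodOf X Z (i :: L)).V :=
    TensorProduct.mk E (X i).V (prodOf X Z L).V x
  have hT : ∀ z, T z = ext (M := X i) (M' := prodOf X Z L) x z := fun z => rfl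
  have h1 := h n (fun t => T (z t)) (fun t => by
    have h2 := hc.ext i L c (r - c) x hx (z t) (hz1 t)
    rwa [Nat.add_sub_cancel' hc2] at h2) (by
    intro c' hc'
    apply hz2 c'
    have h3 : ∑ t, (c' t : E) • T (z t) = T (∑ t, (c' t : E) • z t) := by
      rw [map_sum]
      exact sum_congr rfl fun t _ => (map_smul T _ _).symm
    rw [h3] at hc'
    have h4 := congrArg (ctr (M := X i) (M' := prodOf X Z L) f) hc'
    rw [hT] at h4
    rw [ctr_ext, hfx, one_smul] at h4
    rw [h4]
    exact map_zero (ctr (M := X i) (M' := prodOf X Z L) f))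
  exact LinearIndependent.of_comp T h1

/-- **The theorem.** -/
theorem image_iff (hv : IsValuation v) (hX : IsFermatFamily v φ N s dim X clX fn) {B : ℕ}
    (hZ : HasFewConjugates φ B Z) (hN : ∀ i, IsLarge (N i) (s i) B)
    (hc : AreCycleClasses φ X Z clX fn cl) :
    ∀ (L : List ι), L.Nodup → ∀ r, ImageInjective cl L r ↔
      ∀ j ≤ r, r ≤ j + (L.map dim).sum → ImageInjective cl [] j
  | [], _, r => by
    constructor
    · intro h j h1 h2
      have h3 : r = j := by
        rw [List.map_nil, List.sum_nil] at h2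
        omega
      rwa [← h3]
    · intro h
      exact h r le_rfl (by simp)
  | i :: L, hL, r => by
    have ih := image_iff hv hX hZ hN hc L (List.nodup_cons.1 hL).2
    constructor
    · intro h j h1 h2
      rw [List.map_cons, List.sum_cons] at h2
      obtain ⟨c, hc1, hc2, hc3, hc4⟩ : ∃ c, c ≤ dim i ∧ c ≤ r ∧ j ≤ r - c ∧
          r - c ≤ j + (L.map dim).sum :=
        ⟨min (dim i) (r - j), by omega, by omega, by omega, by omega⟩
      exact (ih (r - c)).1 (image_pull hX hc hc1 hc2 h) j hc3 hc4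
    · intro h
      refine image_step hv hX hZ hN hc hL r fun c hc1 hc2 => (ih (r - c)).2 fun j h1 h2 => ?_
      refine h j (by omega) ?_
      rw [List.map_cons, List.sum_cons]
      omega

end Pool.Agent.U231.PF
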