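import Pool.Agent.U231.PF.Defs

/-!
# The crystalline variational Tate conjecture: definitions
-/

set_option autoImplicit false

open TensorProduct

namespace Pool.Agent.U231.PF

open Pool.Agent.Y95.ZT.S Pool.Agent.U231.LT

variable {E : Type} [Field E] {Γ : Type} [Group Γ]

/-- The cohomology `M` of a variety `X` of dimension `dim` with the sets `cl c` of the classes of
cycles of codimension `c` (with rational coefficients), and the sets `fn c` of the maps
`x ↦ deg(x · b)` for cycles `b` of dimension `c` (with rational coefficients): there are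
finitely many classes which span all classes of cycles, and cycles `b` which are a dual basis; and in
every codimension `c ≤ dim` there are a cycle and a cycle `b` with intersection number `1`. -/
structure IsFactor (φ : Γ) (dim : ℕ) (M : Rp E Γ) (cl : ℕ → Set M.V)
    (fn : ℕ → Set (M.V →ₗ[E] E)) : Prop where
  basis : ∃ (n : ℕ) (a : Fin n → M.V) (f : Fin n → (M.V →ₗ[E] E)),
    IsDualBasis φ M {x | ∃ c : ℕ, x ∈ cl c} a f ∧ ∀ l, ∃ c ≤ dim, a l ∈ cl c ∧ f l ∈ fn c
  plane : ∀ c ≤ dim, ∃ x ∈ cl c, ∃ f ∈ fn c, f x = 1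

/-- The varieties `X i` of dimension `dim i` are of Fermat type of prime degrees `N i`, with the classes
`clX i c` of cycles and the functionals `fn i c` given by cycles. -/
structure IsFermatFamily (v : E → ℚ) (φ : Γ) {ι : Type} (N s dim : ι → ℕ) (X : ι → Rp E Γ)
    (clX : ∀ i, ℕ → Set (X i).V) (fn : ∀ i, ℕ → Set ((X i).V →ₗ[E] E)) : Prop where
  type : AreFermatFrob v φ N s X fun i => {x | ∃ c : ℕ, x ∈ clX i c}
  factor : ∀ i, IsFactor φ (dim i) (X i) (clX i) (fn i)

variable {ι : Type}

/-- A condition on the classes on the fibres at `s` of the families `X i₁ × (X i₂ × (⋯ × Z))` over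
`S`, compatible with the operations: the classes of codimension `r` with the condition are the elements
of `P L r`; sums of them, external products with classes of cycles on `X i`, and push-forwards
of products with cycles on `X i` satisfy the condition. -/
structure IsCondition (X : ι → Rp E Γ) (Z : Rp E Γ) (clX : ∀ i, ℕ → Set (X i).V)
    (fn : ∀ i, ℕ → Set ((X i).V →ₗ[E] E)) (P : ∀ L : List ι, ℕ → Set (prodOf X Z L).V) :
    Prop where
  zero : ∀ L r, 0 ∈ P L r
  add : ∀ L r, ∀ x ∈ P L r, ∀ y ∈ P L r, x + y ∈ P L r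
  ext : ∀ (i : ι) (L : List ι) (c r : ℕ), ∀ a ∈ clX i c, ∀ y ∈ P L r,
    ext (M' := prodOf X Z L) a y ∈ P (i :: L) (c + r)
  push : ∀ (i : ι) (L : List ι) (c r : ℕ), ∀ f ∈ fn i c, ∀ y ∈ P (i :: L) (c + r),
    ctr (M' := prodOf X Z L) f y ∈ P L r

/-- The set `cl L r` consists of the classes of the cycles of codimension `r` on the fibre at `s` of
`X i₁ × (X i₂ × (⋯ × Z))`: it is a condition as above, such classes are invariant under the normalized
Frobenius, and the push-forward vanishes if the codimension is negative. -/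
structure AreClasses (φ : Γ) (X : ι → Rp E Γ) (Z : Rp E Γ) (clX : ∀ i, ℕ → Set (X i).V)
    (fn : ∀ i, ℕ → Set ((X i).V →ₗ[E] E)) (cl : ∀ L : List ι, ℕ → Set (prodOf X Z L).V) :
    Prop where
  cond : IsCondition X Z clX fn cl
  fixed : ∀ L r, ∀ y ∈ cl L r, (prodOf X Z L).ap φ y = y
  neg : ∀ (i : ι) (L : List ι) (c r : ℕ), r < c → ∀ f ∈ fn i c, ∀ y ∈ cl (i :: L) r,
    ctr (M' := prodOf X Z L) f y = 0

/-- All classes of cycles of codimension `r` on the fibre of `X i₁ × (X i₂ × (⋯ × Z))` with the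
condition `P` satisfy the condition `P'`. -/
def Implies {X : ι → Rp E Γ} {Z : Rp E Γ} (cl P P' : ∀ L : List ι, ℕ → Set (prodOf X Z L).V)
    (L : List ι) (r : ℕ) : Prop :=
  ∀ y ∈ cl L r, y ∈ P L r → y ∈ P' L r

/-- There are finitely many classes of cycles of codimension `j` with `r - d ≤ j ≤ r` on the fibre of
`Z` such that, for every condition, the class `y` satisfies the condition if and only if all of
them do. -/
def IsDecided {X : ι → Rp E Γ} {Z : Rp E Γ} (clX : ∀ i, ℕ → Set (X i).V)
    (fn : ∀ i, ℕ → Set ((X i).V →ₗ[E] E)) (cl : ∀ L : List ι, ℕ → Set (prodOf X Z L).V)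
    (L : List ι) (d r : ℕ) (y : (prodOf X Z L).V) : Prop :=
  ∃ T : Set (ℕ × (prodOf X Z []).V), T.Finite ∧
    (∀ t ∈ T, t.1 ≤ r ∧ r ≤ t.1 + d ∧ t.2 ∈ cl [] t.1) ∧
      ∀ P, IsCondition X Z clX fn P → (y ∈ P L r ↔ ∀ t ∈ T, t.2 ∈ P [] t.1)

end Pool.Agent.U231.PF
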